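import Mathlib
import Pool.Agent.N266.TI.Stm

set_option autoImplicit false

/-!
Gauss–Green inequality for the weighted perimeter (project TI).
-/

namespace Pool.Agent.N478.TI

open MeasureTheory Metric Set Topology
open scoped ENNReal Pointwise ContDiff Manifold
open Pool.Agent.N266.TI

/-- the integral of a derivative of a compactly supported `C^1` function vanishes -/
lemma int_fderiv_zero {n : ℕ} (g : E n → ℝ) (hg : ContDiff ℝ 1 g) (hc : HasCompactSupport g)
    (v : E n) : ∫ x, fderiv ℝ g x v = 0 := by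
  have hcont : Continuous (fun x => fderiv ℝ g x v) :=
    (hg.continuous_fderiv (by norm_num)).clm_apply continuous_const
  have hcs : HasCompactSupport (fun x => fderiv ℝ g x v) := by
    apply (hc.fderiv (𝕜 := ℝ)).mono
    intro x hx
    rw [Function.mem_support] at hx ⊢
    intro h
    apply hx
    rw [h]
    simp
  have hint : Integrable (fun x => fderiv ℝ g x v) := hcont.integrable_of_hasCompactSupport hcs
  have h := integral_smul_fderiv_eq_neg_fderiv_smul_of_integrable (𝕜 := ℝ) (μ := (volume : Measure (E n)))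
    (f := fun _ => (1 : ℝ)) (g := g) (v := v)
    (by simp)
    (by simpa using hint)
    (by simpa using hg.continuous.integrable_of_hasCompactSupport hc)
    (fun x _ => differentiableAt_const _)
    (fun x _ => (hg.differentiable (by norm_num)) x)
  simpa using h

/-- integral of divergences of compactly supported fields -/
lemma int_dv_zero {n : ℕ} (Z : E n → E n) (hZ : ContDiff ℝ 1 Z) (hc : HasCompactSupport Z) :
    ∫ x, dv Z x = 0 := by
  have hcomp : ∀ i : Fin n, ∀ x, (fderiv ℝ Z x (e i)) i = fderiv ℝ (fun y => (Z y) i) x (e i) := by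
    intro i x
    have hd : HasFDerivAt Z (fderiv ℝ Z x) x :=
      ((hZ.differentiable (by norm_num)) x).hasFDerivAt
    have h2 := ((EuclideanSpace.proj i : E n →L[ℝ] ℝ).hasFDerivAt (x := Z x)).comp x hd
    have h3 : HasFDerivAt (fun y => (Z y) i) ((EuclideanSpace.proj i : E n →L[ℝ] ℝ).comp (fderiv ℝ Z x)) x := h2
    rw [h3.fderiv]
    rfl
  have hci : ∀ i : Fin n, ContDiff ℝ 1 (fun y => (Z y) i) := fun i =>
    (EuclideanSpace.proj i : E n →L[ℝ] ℝ).contDiff.comp hZ
  have hsi : ∀ i : Fin n, HasCompactSupport (fun y => (Z y) i) := by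
    intro i
    apply hc.mono
    intro x hx
    rw [Function.mem_support] at hx ⊢
    intro h
    apply hx
    simp [h]
  have hi : ∀ i : Fin n, Integrable (fun x => fderiv ℝ (fun y => (Z y) i) x (e i)) := by
    intro i
    have hcont : Continuous (fun x => fderiv ℝ (fun y => (Z y) i) x (e i)) :=
      ((hci i).continuous_fderiv (by norm_num)).clm_apply continuous_const
    refine hcont.integrable_of_hasCompactSupport ?_
    apply ((hsi i).fderiv (𝕜 := ℝ)).mono
    intro x hx
    rw [Function.mem_support] at hx ⊢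
    intro h
    apply hx
    rw [h]
    simp
  unfold dv
  simp_rw [hcomp]
  rw [integral_finsetSum _ (fun i _ => hi i)]
  exact Finset.sum_eq_zero fun i _ => int_fderiv_zero _ (hci i) (hsi i) _

lemma integrable_dv {n : ℕ} (Z : E n → E n) (hZ : ContDiff ℝ 1 Z) (hc : HasCompactSupport Z) :
    Integrable (fun x => dv Z x) := by
  unfold dv
  have hcont : Continuous (fun x => ∑ i, (fderiv ℝ Z x (e i)) i) := by
    apply continuous_finsetSum
    intro i _
    exact (EuclideanSpace.proj i : E n →L[ℝ] ℝ).continuous.comp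
      ((hZ.continuous_fderiv (by norm_num)).clm_apply continuous_const)
  refine hcont.integrable_of_hasCompactSupport ?_
  apply (hc.fderiv (𝕜 := ℝ)).mono
  intro x hx
  rw [Function.mem_support] at hx ⊢
  intro h
  apply hx
  rw [h]
  simp

lemma dv_congr {n : ℕ} {Y Z : E n → E n} {x : E n} (h : Y =ᶠ[𝓝 x] Z) : dv Y x = dv Z x := by
  unfold dv
  rw [h.fderiv_eq]

lemma dv_zero_of {n : ℕ} {Z : E n → E n} {x : E n} (h : Z =ᶠ[𝓝 x] (fun _ => 0)) :
    dv Z x = 0 := by
  rw [dv_congr h]
  unfold dv
  simp

theorem gg : Pool.Agent.N266.TI.GG := by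
  intro n Ω N X w β hβ hΩ hb hN hfr hX hXw hw htop
  set K := frontier Ω with hK
  have hcl : IsCompact (closure Ω) := hb.isCompact_closure
  have hKc : IsCompact K := hcl.of_isClosed_subset isClosed_frontier frontier_subset_closure
  -- the open set where X is C^1
  set U : Set (E n) := {x | ContDiffAt ℝ 1 X x} with hU
  have hUo : IsOpen U := by
    rw [isOpen_iff_mem_nhds]
    intro x hx
    exact ContDiffAt.eventually (hx : ContDiffAt ℝ 1 X x) (by simp)
  have hKU : K ⊆ N ∩ U := fun x hx => ⟨hfr hx, hX x (frontier_subset_closure hx)⟩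
  obtain ⟨K2, hK2c, hKK2, hK2⟩ := exists_compact_between hKc (hN.inter hUo) hKU
  obtain ⟨η, hη1, hη0, hη⟩ := exists_contMDiffMap_one_nhds_of_subset_interior
    (n := (1 : ℕ∞)) 𝓘(ℝ, E n) hKc.isClosed hKK2
  have hηs : ContDiff ℝ 1 (fun x => η x) := by
    have := η.contMDiff.contDiff
    exact_mod_cast this
  have hsub : tsupport (fun x => η x) ⊆ K2 := by
    apply closure_minimal _ hK2c.isClosed
    intro x hx
    by_contra h
    exact hx (hη0 x h)
  have hηc : HasCompactSupport (fun x => η x) := hK2c.of_isClosed_subset (isClosed_tsupport _) hsub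
  set W : E n → E n := fun x => η x • X x with hW
  have hW1 : ContDiff ℝ 1 W := by
    rw [contDiff_iff_contDiffAt]
    intro x
    by_cases hx : x ∈ tsupport (fun x => η x)
    · exact hηs.contDiffAt.smul (hK2 (hsub hx)).2
    · have : W =ᶠ[𝓝 x] (fun _ => 0) := by
        have h1 : ∀ᶠ y in 𝓝 x, y ∉ tsupport (fun x => η x) :=
          (isClosed_tsupport _).isOpen_compl.mem_nhds hx
        filter_upwards [h1] with y hy
        have : η y = 0 := image_eq_zero_of_notMem_tsupport (f := fun x => η x) hy
        simp [hW, this]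
      exact (contDiffAt_const (c := (0 : E n))).congr_of_eventuallyEq this
  have hWc : HasCompactSupport W := by
    apply hηc.mono
    intro x hx
    rw [Function.mem_support] at hx ⊢
    intro h
    apply hx
    simp [hW, h]
  have hηK2 : ∀ x, η x ≠ 0 → x ∈ K2 := by
    intro x hx
    by_contra h
    exact hx (hη0 x h)
  -- the admissible field
  set Y : E n → E n := fun x => (-(1 / β)) • W x with hY
  have hY1 : ContDiff ℝ 1 Y := hW1.const_smul _
  have hYc : HasCompactSupport Y := by
    apply hWc.mono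
    intro x hx
    rw [Function.mem_support] at hx ⊢
    intro h
    apply hx
    simp [hY, h]
  have hYw : ∀ x, ‖Y x‖ ≤ w x := by
    intro x
    by_cases h0 : η x = 0
    · simp [hY, hW, h0, hw x]
    · have hxN := (hK2 (hηK2 x h0)).1
      have h1 := hXw x hxN
      have h2 := hη x
      have h3 : ‖Y x‖ = (1 / β) * (η x * ‖X x‖) := by
        simp only [hY, hW, norm_smul, norm_neg, Real.norm_eq_abs]
        rw [abs_of_pos (by positivity : (0 : ℝ) < 1 / β), abs_of_nonneg h2.1]
      rw [h3]
      have h4 : η x * ‖X x‖ ≤ 1 * (β * w x) :=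
        mul_le_mul h2.2 h1 (norm_nonneg _) zero_le_one
      calc (1 / β) * (η x * ‖X x‖) ≤ (1 / β) * (1 * (β * w x)) :=
            mul_le_mul_of_nonneg_left h4 (by positivity)
        _ = w x := by field_simp
  have hYle : ∫ x in Ω, dv Y x ≤ (bdryInt Ω w).toReal := by
    have h1 : ENNReal.ofReal (∫ x in Ω, dv Y x) ≤ bdryInt Ω w := by
      unfold bdryInt
      exact le_iSup₂ (f := fun (X : E n → E n) (_ : ContDiff ℝ 1 X ∧ HasCompactSupport X ∧ ∀ x, ‖X x‖ ≤ w x) =>
        ENNReal.ofReal (∫ x in Ω, dv X x)) Y ⟨hY1, hYc, hYw⟩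
    exact (ENNReal.ofReal_le_iff_le_toReal htop).1 h1
  have hYW : ∀ x, dv Y x = (-(1 / β)) * dv W x := by
    intro x
    unfold dv
    have : fderiv ℝ Y x = (-(1 / β)) • fderiv ℝ W x :=
      fderiv_fun_const_smul ((hW1.differentiable (by norm_num)) x) _
    rw [this, Finset.mul_sum]
    apply Finset.sum_congr rfl
    intro i _
    simp
  -- the inner field
  set Z : E n → E n := Ω.indicator (fun x => X x - W x) with hZ
  have hZout : ∀ x, x ∉ Ω → Z =ᶠ[𝓝 x] (fun _ => 0) := by
    intro x hx
    by_cases hxc : x ∈ closure Ω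
    · have hxK : x ∈ K := by
        rw [hK, frontier, hΩ.interior_eq]
        exact ⟨hxc, hx⟩
      have h1 : ∀ᶠ y in 𝓝 x, η y = 1 := hη1.filter_mono (nhds_le_nhdsSet hxK)
      filter_upwards [h1] with y hy
      simp [hZ, hW, hy, Set.indicator]
    · have h1 : ∀ᶠ y in 𝓝 x, y ∉ closure Ω := isClosed_closure.isOpen_compl.mem_nhds hxc
      filter_upwards [h1] with y hy
      exact Set.indicator_of_notMem (fun h => hy (subset_closure h)) _
  have hZin : ∀ x, x ∈ Ω → Z =ᶠ[𝓝 x] (fun x => X x - W x) := by
    intro x hx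
    filter_upwards [hΩ.mem_nhds hx] with y hy
    exact Set.indicator_of_mem hy _
  have hZ1 : ContDiff ℝ 1 Z := by
    rw [contDiff_iff_contDiffAt]
    intro x
    by_cases hx : x ∈ Ω
    · exact ((hX x (subset_closure hx)).sub hW1.contDiffAt).congr_of_eventuallyEq (hZin x hx)
    · exact (contDiffAt_const (c := (0 : E n))).congr_of_eventuallyEq (hZout x hx)
  have hZc : HasCompactSupport Z := by
    apply HasCompactSupport.intro hcl
    intro x hx
    exact Set.indicator_of_notMem (fun h => hx (subset_closure h)) _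
  have hZint : ∫ x in Ω, dv Z x = 0 := by
    rw [setIntegral_eq_integral_of_forall_compl_eq_zero (fun x hx => dv_zero_of (hZout x hx))]
    exact int_dv_zero Z hZ1 hZc
  have hsum : ∀ x ∈ Ω, dv X x = dv W x + dv Z x := by
    intro x hx
    rw [dv_congr (hZin x hx)]
    unfold dv
    have : fderiv ℝ (fun x => X x - W x) x = fderiv ℝ X x - fderiv ℝ W x :=
      fderiv_fun_sub ((hX x (subset_closure hx)).differentiableAt (by norm_num))
        ((hW1.differentiable (by norm_num)) x)
    rw [this, ← Finset.sum_add_distrib]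
    apply Finset.sum_congr rfl
    intro i _
    simp
  have hXint : ∫ x in Ω, dv X x = ∫ x in Ω, dv W x := by
    rw [setIntegral_congr_fun hΩ.measurableSet hsum,
      integral_add (integrable_dv W hW1 hWc).integrableOn (integrable_dv Z hZ1 hZc).integrableOn,
      hZint, add_zero]
  rw [hXint]
  have hYint : ∫ x in Ω, dv Y x = (-(1 / β)) * ∫ x in Ω, dv W x := by
    simp_rw [hYW]
    rw [integral_const_mul]
  rw [hYint] at hYle
  have h5 : (-(1 / β)) * (∫ x in Ω, dv W x) * β ≤ (bdryInt Ω w).toReal * β :=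
    mul_le_mul_of_nonneg_right hYle hβ.le
  have h6 : (-(1 / β)) * (∫ x in Ω, dv W x) * β = -(∫ x in Ω, dv W x) := by
    field_simp
  rw [h6] at h5
  linarith

end Pool.Agent.N478.TI
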